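import Pool.Agent.H32.Nk.Upper
import Pool.Agent.H32.Low.Lower

/-!
# `n_k` grows faster than every power of `k`

`n_k` is the least `n ≥ 2k` such that `(n-1)(n-2)...(n-k)` is divisible by no prime in `(k,2k)`.
We prove the first of the two bounds conjectured by Erdős (1979): `n_k > k^d` for every fixed `d`
and all large `k`.

Outline of the proof. If `n` is admissible then `n / p` is within `δ` of an integer for every prime
`p ∈ (k, (1+δ)k]`. By the nonvanishing of `ζ` on `re s = 1` (and a band-limited minorant) there are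
at least `c δ k / log k` such primes. On the other hand Selberg's sieve, together with van der
Corput's method for the exponential sums over `m` with phase `h n / (d m)`, bounds the number of
primes `p ∈ (k, (1+δ)k]` with `n / p` that close to an integer by `C_d δ² k / log k`. For `δ` small
in terms of `d` this is a contradiction.
-/

namespace Pool.Agent.Results.MP_9698ab_nt.LowerBound

open Finset Filter

/-- `n_k`: the least `n ≥ 2k` such that the product `∏_{i=1}^{k} (n-i)` is divisible by no prime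
`p` with `k < p < 2k`. -/
noncomputable def nk (k : ℕ) : ℕ :=
  sInf {n : ℕ | 2 * k ≤ n ∧
    ∀ p : ℕ, p.Prime → k < p → p < 2 * k → ¬ p ∣ ∏ i ∈ Finset.Icc 1 k, (n - i)}

/-- For every real `d`, `n_k > k^d` for all sufficiently large `k`. -/
theorem result : ∀ d : ℝ, ∀ᶠ k : ℕ in atTop, (k : ℝ) ^ d < (nk k : ℝ) := by
  intro d
  obtain ⟨D, hD⟩ := exists_nat_ge d
  filter_upwards [Pool.Agent.H32.Nk.upper_bound, Pool.Agent.H32.Low.main_lower D,
    eventually_ge_atTop 1] with k hk hl hk1
  obtain ⟨n, hn1, _⟩ := hk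
  have hne : {n : ℕ | 2 * k ≤ n ∧
    ∀ p : ℕ, p.Prime → k < p → p < 2 * k → ¬ p ∣ ∏ i ∈ Finset.Icc 1 k, (n - i)}.Nonempty :=
    ⟨n, hn1⟩
  have hmem := Nat.sInf_mem hne
  obtain ⟨h1, h2⟩ : 2 * k ≤ nk k ∧
    ∀ p : ℕ, p.Prime → k < p → p < 2 * k → ¬ p ∣ ∏ i ∈ Finset.Icc 1 k, (nk k - i) := hmem
  by_contra hle
  have hle' : (nk k : ℝ) ≤ (k : ℝ) ^ d := not_lt.mp hle
  have hk1' : (1 : ℝ) ≤ k := by exact_mod_cast hk1
  have h3 : (nk k : ℝ) ≤ (k : ℝ) ^ D := by
    refine hle'.trans ?_
    rw [← Real.rpow_natCast]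
    exact Real.rpow_le_rpow_of_exponent_le hk1' hD
  obtain ⟨p, hp, hkp, hp2, hdvd⟩ := hl (nk k) h1 h3
  exact h2 p hp hkp hp2 hdvd

end Pool.Agent.Results.MP_9698ab_nt.LowerBound
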