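import Mathlib
import Pool.Agent.H32.Nk.Primes

/-!
# Consecutive integers avoiding primes in `(k, 2k)`, up to a small corner

MP_9698ab_nt.  The second conjectured bound `n_k < e^(o(k))` holds up to the corner
`p ≤ i + k^(1-η)`: see `result` and its corollary `exp_small`.
-/

namespace Pool.Agent.Results.MP_9698ab_nt.ShorterRuns

open Finset Filter
open Pool.Agent.H32.Nk (PP mem_PP prod_PP_le)

/-- number of primes in `(k, 2k)` times `log k` is at most `k log 4` -/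
lemma card_PP_log (k : ℕ) (hk : 1 ≤ k) : (PP k).card * Real.log k ≤ k * Real.log 4 := by
  have h1 : k ^ (PP k).card ≤ 4 ^ k := by
    refine le_trans ?_ (prod_PP_le k)
    rw [← prod_const]
    exact prod_le_prod' fun p hp => (mem_PP.mp hp).1.1.le
  have h2 : (k : ℝ) ^ (PP k).card ≤ 4 ^ k := by exact_mod_cast h1
  have hkpos : (0 : ℝ) < k := by exact_mod_cast hk
  have h3 := Real.log_le_log (by positivity) h2
  rwa [Real.log_pow, Real.log_pow] at h3

/-- pigeonhole: a positive multiple `c` of `3k` whose residues modulo all primes of `(k,2k)` are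
all within `m-1` of zero -/
lemma pigeon (k m : ℕ) : ∃ j₁ j₂ : ℕ, j₁ < j₂ ∧ j₂ ≤ ∏ p ∈ PP k, (p / m + 1) ∧
    ∀ p ∈ PP k, (3 * k * j₁ % p) / m = (3 * k * j₂ % p) / m := by
  classical
  let F : ℕ → ((p : {x // x ∈ PP k}) → ℕ) := fun j p => (3 * k * j % p.1) / m
  let T : Finset ((p : {x // x ∈ PP k}) → ℕ) :=
    Fintype.piFinset fun p => range (p.1 / m + 1)
  have hT : T.card = ∏ p ∈ PP k, (p / m + 1) := by
    simp only [T, Fintype.card_piFinset, card_range]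
    exact Finset.prod_coe_sort (PP k) (fun p => p / m + 1)
  have hmaps : ∀ j ∈ range (T.card + 1), F j ∈ T := by
    intro j _
    rw [Fintype.mem_piFinset]
    intro p
    rw [mem_range]
    have hp : 0 < p.1 := (mem_PP.mp p.2).2.pos
    have h1 : 3 * k * j % p.1 < p.1 := Nat.mod_lt _ hp
    have h2 : (3 * k * j % p.1) / m ≤ p.1 / m := Nat.div_le_div_right h1.le
    exact Nat.lt_succ_of_le h2
  obtain ⟨x, hx, y, hy, hxy, hF⟩ := Finset.exists_ne_map_eq_of_card_lt_of_maps_to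
    (s := range (T.card + 1)) (t := T) (by rw [card_range]; omega) hmaps
  rw [mem_range] at hx hy
  rcases lt_or_gt_of_ne hxy with h | h
  · exact ⟨x, y, h, by rw [← hT]; omega, fun p hp => congrFun hF ⟨p, hp⟩⟩
  · exact ⟨y, x, h, by rw [← hT]; omega, fun p hp => (congrFun hF ⟨p, hp⟩).symm⟩

/-- the shifted multiple -/
lemma exists_n (k g : ℕ) (hk : 2 ≤ k) (hg : g ≤ k) : ∃ n : ℕ, 2 * k ≤ n ∧
    n ≤ 3 * k * ∏ p ∈ PP k, (p / (g / 2 + 1) + 1) ∧
    ∀ i : ℕ, 1 ≤ i → i ≤ k → ∀ p : ℕ, p.Prime → k < p → p < 2 * k → p ∣ n - i → p ≤ i + g := by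
  obtain ⟨j₁, j₂, hj, hJ, hP⟩ := pigeon k (g / 2 + 1)
  obtain ⟨d, rfl⟩ : ∃ d, j₂ = j₁ + (d + 1) := ⟨j₂ - j₁ - 1, by omega⟩
  have hc : 3 * k ≤ 3 * k * (d + 1) := Nat.le_mul_of_pos_right _ (by omega)
  have hn : 2 * k + g / 2 ≤ 3 * k := by omega
  refine ⟨3 * k * (d + 1) - g / 2, by omega, ?_, ?_⟩
  · refine (Nat.sub_le _ _).trans ?_
    exact Nat.mul_le_mul_left _ (by omega)
  · intro i hi1 hik p hp hkp hp2 hdvd
    by_contra hcon
    push Not at hcon
    have h1 := hP p (mem_PP.mpr ⟨⟨hkp, hp2⟩, hp⟩)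
    set a := 3 * k * j₁ % p with ha
    set b := 3 * k * (j₁ + (d + 1)) % p with hb
    have hap : a < p := Nat.mod_lt _ hp.pos
    have hbp : b < p := Nat.mod_lt _ hp.pos
    -- |a - b| ≤ g/2
    have hm : 0 < g / 2 + 1 := by omega
    have ha1 := Nat.div_add_mod a (g / 2 + 1)
    have hb1 := Nat.div_add_mod b (g / 2 + 1)
    have ha2 := Nat.mod_lt a hm
    have hb2 := Nat.mod_lt b hm
    rw [← h1] at hb1
    have hab1 : a ≤ b + g / 2 := by omega
    have hab2 : b ≤ a + g / 2 := by omega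
    -- the divisibility over the integers
    have e1 : (p : ℤ) ∣ (3 * k * j₁ : ℤ) - a := by
      have := Nat.div_add_mod (3 * k * j₁) p
      refine ⟨((3 * k * j₁ / p : ℕ) : ℤ), ?_⟩
      have h2 : ((p * (3 * k * j₁ / p) + 3 * k * j₁ % p : ℕ) : ℤ) = ((3 * k * j₁ : ℕ) : ℤ) := by
        exact_mod_cast this
      rw [Nat.cast_add, Nat.cast_mul, ← ha] at h2
      push_cast at h2 ⊢
      linarith
    have e2 : (p : ℤ) ∣ (3 * k * (j₁ + (d + 1)) : ℤ) - b := by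
      have := Nat.div_add_mod (3 * k * (j₁ + (d + 1))) p
      refine ⟨((3 * k * (j₁ + (d + 1)) / p : ℕ) : ℤ), ?_⟩
      have h2 : ((p * (3 * k * (j₁ + (d + 1)) / p) + 3 * k * (j₁ + (d + 1)) % p : ℕ) : ℤ)
          = ((3 * k * (j₁ + (d + 1)) : ℕ) : ℤ) := by
        exact_mod_cast this
      rw [Nat.cast_add, Nat.cast_mul, ← hb] at h2
      push_cast at h2 ⊢
      linarith
    have e3 : (p : ℤ) ∣ (3 * k * (d + 1) : ℤ) - g / 2 - i := by
      have h3 : ((3 * k * (d + 1) - g / 2 - i : ℕ) : ℤ) = (3 * k * (d + 1) : ℤ) - (g / 2 : ℕ) - i := by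
        rw [Nat.cast_sub (by omega), Nat.cast_sub (by omega)]
        push_cast
        ring
      have h4 : (p : ℤ) ∣ ((3 * k * (d + 1) - g / 2 - i : ℕ) : ℤ) := by exact_mod_cast hdvd
      rw [h3] at h4
      exact_mod_cast h4
    have e4 : (p : ℤ) ∣ (a : ℤ) + (g / 2 : ℕ) + i - b := by
      have h5 := dvd_sub (dvd_sub e2 e1) e3
      have h6 : ((3 * k * (j₁ + (d + 1)) : ℤ) - b) - ((3 * k * j₁ : ℤ) - a)
          - ((3 * k * (d + 1) : ℤ) - g / 2 - i) = (a : ℤ) + (g / 2 : ℕ) + i - b := by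
        push_cast
        ring
      rwa [h6] at h5
    have e5 : 0 < (a : ℤ) + (g / 2 : ℕ) + i - b := by
      have : (b : ℤ) ≤ a + (g / 2 : ℕ) := by exact_mod_cast hab2
      have : (1 : ℤ) ≤ i := by exact_mod_cast hi1
      linarith
    have e6 : (a : ℤ) + (g / 2 : ℕ) + i - b < p := by
      have h7 : (a : ℤ) ≤ b + (g / 2 : ℕ) := by exact_mod_cast hab1
      have h8 : (i : ℤ) + g < p := by exact_mod_cast hcon
      have h9 : ((g / 2 : ℕ) : ℤ) + (g / 2 : ℕ) ≤ g := by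
        have : g / 2 + g / 2 ≤ g := by omega
        exact_mod_cast this
      linarith
    exact absurd (Int.le_of_dvd e5 e4) (not_le.mpr e6)

/-- the size of the product of the numbers of cells -/
lemma prod_cells_le (k g : ℕ) (hk : 2 ≤ k) (hg1 : 1 ≤ g) (hg : g ≤ k) :
    ((∏ p ∈ PP k, (p / (g / 2 + 1) + 1) : ℕ) : ℝ)
      ≤ (5 * k / g : ℝ) ^ (k * Real.log 4 / Real.log k) := by
  have hkpos : (0 : ℝ) < k := by exact_mod_cast (by omega : 0 < k)
  have hgpos : (0 : ℝ) < g := by exact_mod_cast hg1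
  have hgk : (g : ℝ) ≤ k := by exact_mod_cast hg
  have hb1 : (1 : ℝ) ≤ 5 * k / g := by
    rw [le_div_iff₀ hgpos]; linarith
  have hlogk : 0 < Real.log k := Real.log_pos (by exact_mod_cast (by omega : 1 < k))
  have hcard : ((PP k).card : ℝ) ≤ k * Real.log 4 / Real.log k := by
    rw [le_div_iff₀ hlogk]
    exact card_PP_log k (by omega)
  have hterm : ∀ p ∈ PP k, ((p / (g / 2 + 1) + 1 : ℕ) : ℝ) ≤ 5 * k / g := by
    intro p hp
    have hp2 := (mem_PP.mp hp).1.2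
    have h1 : p / (g / 2 + 1) * (g / 2 + 1) ≤ p := Nat.div_mul_le_self _ _
    have h2 : g ≤ 2 * (g / 2) + 1 := by omega
    have h3 : p / (g / 2 + 1) * g ≤ 4 * k := by
      calc p / (g / 2 + 1) * g ≤ p / (g / 2 + 1) * (2 * (g / 2 + 1)) :=
            Nat.mul_le_mul_left _ (by omega)
        _ = 2 * (p / (g / 2 + 1) * (g / 2 + 1)) := by ring
        _ ≤ 4 * k := by omega
    have h4 : ((p / (g / 2 + 1) : ℕ) : ℝ) * g ≤ 4 * k := by exact_mod_cast h3
    rw [le_div_iff₀ hgpos]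
    push_cast at h4 ⊢
    linarith
  calc ((∏ p ∈ PP k, (p / (g / 2 + 1) + 1) : ℕ) : ℝ)
      = ∏ p ∈ PP k, ((p / (g / 2 + 1) + 1 : ℕ) : ℝ) := by push_cast; rfl
    _ ≤ ∏ _p ∈ PP k, (5 * k / g : ℝ) :=
        Finset.prod_le_prod (fun p _ => by positivity) hterm
    _ = (5 * k / g : ℝ) ^ ((PP k).card : ℝ) := by rw [prod_const, Real.rpow_natCast]
    _ ≤ _ := Real.rpow_le_rpow_of_exponent_le hb1 hcard

/-- the uniform bound -/
theorem uniform (k g : ℕ) (hk : 2 ≤ k) (hg1 : 1 ≤ g) (hg : g ≤ k) : ∃ n : ℕ, 2 * k ≤ n ∧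
    (n : ℝ) ≤ 3 * k * (5 * k / g : ℝ) ^ (k * Real.log 4 / Real.log k) ∧
    ∀ i : ℕ, 1 ≤ i → i ≤ k → ∀ p : ℕ, p.Prime → k < p → p < 2 * k → p ∣ n - i → p ≤ i + g := by
  obtain ⟨n, h1, h2, h3⟩ := exists_n k g hk hg
  refine ⟨n, h1, ?_, h3⟩
  have h4 : (n : ℝ) ≤ ((3 * k * ∏ p ∈ PP k, (p / (g / 2 + 1) + 1) : ℕ) : ℝ) := by
    exact_mod_cast h2
  refine h4.trans ?_
  rw [Nat.cast_mul]
  have h5 := prod_cells_le k g hk hg1 hg
  push_cast at h5 ⊢
  exact mul_le_mul_of_nonneg_left h5 (by positivity)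

/-- `log(3k) + k log 4 log 5 / log k ≤ ε k` eventually -/
lemma small (ε : ℝ) (hε : 0 < ε) : ∀ᶠ k : ℕ in atTop,
    Real.log (3 * k) + k * Real.log 4 / Real.log k * Real.log 5 ≤ ε * k := by
  have h1 : Tendsto (fun k : ℕ => Real.log (3 * k) / (3 * k)) atTop (nhds 0) := by
    have hlog : Tendsto (fun x : ℝ => Real.log x / x) atTop (nhds 0) := by
      have := Real.isLittleO_log_id_atTop.tendsto_div_nhds_zero
      simpa using this
    have h3 : Tendsto (fun k : ℕ => (3 : ℝ) * k) atTop atTop :=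
      tendsto_natCast_atTop_atTop.const_mul_atTop (by norm_num)
    exact hlog.comp h3
  have h2 : Tendsto (fun k : ℕ => Real.log (k : ℝ)) atTop atTop :=
    Real.tendsto_log_atTop.comp tendsto_natCast_atTop_atTop
  have hε6 : (0 : ℝ) < ε / 6 := by positivity
  have hL : 0 < Real.log 4 * Real.log 5 := by
    have := Real.log_pos (by norm_num : (1 : ℝ) < 4)
    have := Real.log_pos (by norm_num : (1 : ℝ) < 5)
    positivity
  filter_upwards [h1.eventually (gt_mem_nhds hε6),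
    h2.eventually (eventually_ge_atTop (2 * (Real.log 4 * Real.log 5) / ε)),
    eventually_ge_atTop 2] with k hk1 hk2 hk3
  have hkpos : (0 : ℝ) < k := by exact_mod_cast (by omega : 0 < k)
  have hlogk : 0 < Real.log k := Real.log_pos (by exact_mod_cast (by omega : 1 < k))
  rw [div_lt_iff₀ (by positivity)] at hk1
  rw [div_le_iff₀ hε] at hk2
  have h5 : k * Real.log 4 / Real.log k * Real.log 5 ≤ ε / 2 * k := by
    rw [div_mul_eq_mul_div, div_le_iff₀ hlogk]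
    nlinarith
  linarith

/-- **Corollary** (the choice `g = ⌈k^(1-η)⌉` in `result`): for every `ε > 0` there is `η > 0`
such that, for all large `k`, some `n` with `2k ≤ n ≤ e^(εk)` has the property that every prime
`k < p < 2k` dividing `n - i` for some `1 ≤ i ≤ k` is smaller than `i + k^(1-η) + 1`. -/
theorem exp_small (ε : ℝ) (hε : 0 < ε) : ∃ η : ℝ, 0 < η ∧ ∀ᶠ k : ℕ in atTop, ∃ n : ℕ, 2 * k ≤ n ∧
    (n : ℝ) ≤ Real.exp (ε * k) ∧
    ∀ i : ℕ, 1 ≤ i → i ≤ k → ∀ p : ℕ, p.Prime → k < p → p < 2 * k → p ∣ n - i →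
      (p : ℝ) < i + (k : ℝ) ^ (1 - η) + 1 := by
  have hl4 : 0 < Real.log 4 := Real.log_pos (by norm_num)
  refine ⟨ε / (2 * Real.log 4), by positivity, ?_⟩
  filter_upwards [small (ε / 2) (by positivity), eventually_ge_atTop 2] with k hk hk2
  have hkpos : (0 : ℝ) < k := by exact_mod_cast (by omega : 0 < k)
  have hk1 : (1 : ℝ) ≤ k := by exact_mod_cast (by omega : 1 ≤ k)
  have hlogk : 0 < Real.log k := Real.log_pos (by exact_mod_cast (by omega : 1 < k))
  set η : ℝ := ε / (2 * Real.log 4) with hη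
  have hηpos : 0 < η := by positivity
  have hx : 0 < (k : ℝ) ^ (1 - η) := Real.rpow_pos_of_pos hkpos _
  have hxk : (k : ℝ) ^ (1 - η) ≤ k := by
    calc (k : ℝ) ^ (1 - η) ≤ (k : ℝ) ^ (1 : ℝ) :=
          Real.rpow_le_rpow_of_exponent_le hk1 (by linarith)
      _ = k := Real.rpow_one _
  have hg1 : 1 ≤ ⌈(k : ℝ) ^ (1 - η)⌉₊ := Nat.one_le_iff_ne_zero.mpr (Nat.ceil_pos.mpr hx).ne'
  have hgk : ⌈(k : ℝ) ^ (1 - η)⌉₊ ≤ k := Nat.ceil_le.mpr hxk
  obtain ⟨n, hn1, hn2, hn3⟩ := uniform k _ hk2 hg1 hgk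
  refine ⟨n, hn1, hn2.trans ?_, ?_⟩
  · have hgpos : (0 : ℝ) < (⌈(k : ℝ) ^ (1 - η)⌉₊ : ℝ) := by exact_mod_cast hg1
    have hge : (k : ℝ) ^ (1 - η) ≤ (⌈(k : ℝ) ^ (1 - η)⌉₊ : ℝ) := Nat.le_ceil _
    have hb : (5 * k / (⌈(k : ℝ) ^ (1 - η)⌉₊ : ℝ) : ℝ) ≤ 5 * (k : ℝ) ^ η := by
      rw [div_le_iff₀ hgpos]
      have h1 : (k : ℝ) = (k : ℝ) ^ η * (k : ℝ) ^ (1 - η) := by
        rw [← Real.rpow_add hkpos]
        have : η + (1 - η) = 1 := by ring
        rw [this, Real.rpow_one]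
      have h2 : (0 : ℝ) < (k : ℝ) ^ η := Real.rpow_pos_of_pos hkpos _
      calc (5 * k : ℝ) = 5 * ((k : ℝ) ^ η * (k : ℝ) ^ (1 - η)) := by rw [← h1]
        _ ≤ 5 * ((k : ℝ) ^ η * (⌈(k : ℝ) ^ (1 - η)⌉₊ : ℝ)) := by gcongr
        _ = _ := by ring
    have hE : 0 ≤ k * Real.log 4 / Real.log k := by positivity
    have hb0 : (0 : ℝ) < 5 * k / (⌈(k : ℝ) ^ (1 - η)⌉₊ : ℝ) := by positivity
    have h5η : (0 : ℝ) < 5 * (k : ℝ) ^ η := by positivity
    calc 3 * k * (5 * k / (⌈(k : ℝ) ^ (1 - η)⌉₊ : ℝ) : ℝ) ^ (k * Real.log 4 / Real.log k)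
        ≤ 3 * k * (5 * (k : ℝ) ^ η) ^ (k * Real.log 4 / Real.log k) := by
          apply mul_le_mul_of_nonneg_left _ (by positivity)
          exact Real.rpow_le_rpow hb0.le hb hE
      _ = Real.exp (Real.log (3 * k) + k * Real.log 4 / Real.log k * Real.log 5
            + η * Real.log 4 * k) := by
          have h6 : Real.log (5 * (k : ℝ) ^ η) = Real.log 5 + η * Real.log k := by
            rw [Real.log_mul (by norm_num) (by positivity), Real.log_rpow hkpos]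
          rw [Real.rpow_def_of_pos h5η, h6, ← Real.exp_log (by positivity : (0 : ℝ) < 3 * k),
            ← Real.exp_add, Real.exp_log (by positivity : (0 : ℝ) < 3 * k)]
          congr 1
          field_simp
          ring
      _ ≤ Real.exp (ε * k) := by
          apply Real.exp_le_exp.mpr
          have h7 : η * Real.log 4 * k = ε / 2 * k := by
            rw [hη]; field_simp
          linarith
  · intro i hi1 hik p hp h1 h2 h3
    have h4 := hn3 i hi1 hik p hp h1 h2 h3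
    have h5 : (p : ℝ) ≤ i + (⌈(k : ℝ) ^ (1 - η)⌉₊ : ℝ) := by exact_mod_cast h4
    have h6 := Nat.ceil_lt_add_one hx.le
    linarith

/-- For all `k ≥ 2` and `1 ≤ g ≤ k` there is an integer `n` with
`2k ≤ n ≤ 3k (5k/g)^(k log 4 / log k)` such that a prime `k < p < 2k` divides `n - i`, with
`1 ≤ i ≤ k`, only if `p ≤ i + g`. (The quantity `n_k` of the problem is the least `n ≥ 2k` with
this property for `g = 0`.) -/
theorem result (k g : ℕ) (hk : 2 ≤ k) (hg1 : 1 ≤ g) (hg : g ≤ k) : ∃ n : ℕ, 2 * k ≤ n ∧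
    (n : ℝ) ≤ 3 * k * (5 * k / g : ℝ) ^ (k * Real.log 4 / Real.log k) ∧
    ∀ i : ℕ, 1 ≤ i → i ≤ k → ∀ p : ℕ, p.Prime → k < p → p < 2 * k → p ∣ n - i → p ≤ i + g :=
  uniform k g hk hg1 hg

end Pool.Agent.Results.MP_9698ab_nt.ShorterRuns
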