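import Pool.Agent.H32.Nk.Upper

/-!
# An exponentially smaller upper bound for `n_k`

`n_k` is the least `n ≥ 2k` such that `(n-1)(n-2)...(n-k)` is divisible by no prime in `(k,2k)`.
The trivial bound is `n_k ≤ 2 P_k` with `P_k` the product of the primes in `(k,2k)`.
We prove `n_k ≤ P_k^(1-δ)` for an absolute constant `δ > 0` and all large `k`.
-/

namespace Pool.Agent.Results.MP_9698ab_nt.UpperBound

open Finset Filter

/-- `n_k`: the least `n ≥ 2k` such that the product `∏_{i=1}^{k} (n-i)` is divisible by no prime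
`p` with `k < p < 2k`. -/
noncomputable def nk (k : ℕ) : ℕ :=
  sInf {n : ℕ | 2 * k ≤ n ∧
    ∀ p : ℕ, p.Prime → k < p → p < 2 * k → ¬ p ∣ ∏ i ∈ Finset.Icc 1 k, (n - i)}

/-- `P_k`: the product of all primes `p` with `k < p < 2k`. -/
def Pk (k : ℕ) : ℕ := ∏ p ∈ (Finset.Ioo k (2 * k)).filter Nat.Prime, p

/-- There is an absolute constant `δ > 0` with `n_k ≤ P_k^(1-δ)` for all sufficiently
large `k`. -/
theorem result : ∃ δ : ℝ, 0 < δ ∧ ∀ᶠ k : ℕ in atTop, (nk k : ℝ) ≤ (Pk k : ℝ) ^ (1 - δ) := by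
  refine ⟨1 / 10 ^ 7, by norm_num, ?_⟩
  filter_upwards [Pool.Agent.H32.Nk.upper_bound] with k hk
  obtain ⟨n, hn1, hn2⟩ := hk
  refine le_trans ?_ hn2
  have : nk k ≤ n := Nat.sInf_le hn1
  exact_mod_cast this

end Pool.Agent.Results.MP_9698ab_nt.UpperBound
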